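import Pool.Agent.Y316.EV.Stm2

/-!
# The Bernoulli shift on `K` is ergodic and essentially free (part BERN of project EV)
-/

set_option autoImplicit false

namespace Pool.Agent.Y705.EVB

open MeasureTheory Set Filter Topology Pool.Agent.Y316.EV
open scoped ENNReal NNReal

section cyl

variable {Γ : Type}

/-- The points with given coordinates in a finite set. -/
def cyl (W : Finset (Γ × ℕ)) (b : KK Γ) : Set (KK Γ) := {ω | ∀ z ∈ W, ω z = b z}

lemma mem_cyl {W : Finset (Γ × ℕ)} {b ω : KK Γ} : ω ∈ cyl W b ↔ ∀ z ∈ W, ω z = b z := Iff.rfl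

lemma measurable_cyl (W : Finset (Γ × ℕ)) (b : KK Γ) : MeasurableSet (cyl W b) := by
  have h : cyl W b = ⋂ z ∈ W, (fun ω : KK Γ => ω z) ⁻¹' {b z} := by
    ext ω
    simp [cyl]
  rw [h]
  exact Finset.measurableSet_biInter _ fun z _ => measurable_pi_apply z (MeasurableSet.singleton _)

variable [Countable Γ]

lemma measure_cyl (W : Finset (Γ × ℕ)) : ∀ b : KK Γ, haarK Γ (cyl W b) = (2⁻¹ : ℝ≥0∞) ^ W.card := by
  classical
  induction W using Finset.induction_on with
  | empty =>
    intro b
    have h : cyl (∅ : Finset (Γ × ℕ)) b = univ := by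
      ext ω
      simp [cyl]
    rw [h, measure_univ]
    simp
  | insert z W hz ih =>
    intro b
    let e : KK Γ := Pi.single z 1
    have hez : e z = 1 := Pi.single_eq_same z 1
    have hew : ∀ u ∈ W, e u = 0 := fun u hu =>
      Pi.single_eq_of_ne (fun h => hz (by rw [← h]; exact hu)) 1
    -- the translate
    have h1 : (fun ω => e + ω) ⁻¹' cyl (insert z W) b = cyl (insert z W) (b + e) := by
      ext ω
      rw [mem_preimage, mem_cyl, mem_cyl]
      refine forall₂_congr fun u _ => ?_
      rw [Pi.add_apply, Pi.add_apply]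
      generalize ω u = x
      generalize b u = y
      generalize e u = v
      revert x y v
      decide
    have h2 : haarK Γ (cyl (insert z W) (b + e)) = haarK Γ (cyl (insert z W) b) := by
      rw [← h1, measure_preimage_add]
    have h3 : cyl W b = cyl (insert z W) b ∪ cyl (insert z W) (b + e) := by
      ext ω
      rw [mem_union, mem_cyl, mem_cyl, mem_cyl]
      constructor
      · intro h
        have h4 : ω z = b z ∨ ω z = b z + 1 := by
          generalize ω z = x
          generalize b z = y
          revert x y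
          decide
        rcases h4 with h4 | h4
        · left
          intro u hu
          rcases Finset.mem_insert.1 hu with rfl | hu
          · exact h4
          · exact h u hu
        · right
          intro u hu
          rcases Finset.mem_insert.1 hu with rfl | hu
          · rw [Pi.add_apply, hez, h4]
          · rw [Pi.add_apply, hew u hu, add_zero, h u hu]
      · rintro (h | h)
        · exact fun u hu => h u (Finset.mem_insert_of_mem hu)
        · intro u hu
          rw [h u (Finset.mem_insert_of_mem hu), Pi.add_apply, hew u hu, add_zero]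
    have h4 : Disjoint (cyl (insert z W) b) (cyl (insert z W) (b + e)) := by
      rw [Set.disjoint_left]
      intro ω ha hb
      have h5 := ha z (Finset.mem_insert_self _ _)
      have h6 := hb z (Finset.mem_insert_self _ _)
      rw [h5, Pi.add_apply, hez] at h6
      have h7 : (1 : ZMod 2) = 0 := by
        have := h6
        rw [left_eq_add] at this
        exact this
      exact absurd h7 (by decide)
    have h5 := ih b
    rw [h3, measure_union h4 (measurable_cyl _ _), h2, ← two_mul] at h5
    rw [Finset.card_insert_of_notMem hz, pow_succ, ← h5, mul_comm, ← mul_assoc,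
      ENNReal.inv_mul_cancel (by norm_num) (by norm_num), one_mul]

lemma generate_cyl : (inferInstance : MeasurableSpace (KK Γ)) =
    MeasurableSpace.generateFrom {s | ∃ W b, s = cyl (Γ := Γ) W b} := by
  classical
  apply le_antisymm
  · refine iSup_le fun z => ?_
    rw [MeasurableSpace.comap_le_iff_le_map]
    intro s _
    have h1 : (fun ω : KK Γ => ω z) ⁻¹' s = ⋃ c ∈ s, cyl {z} (fun _ => c) := by
      ext ω
      simp only [mem_preimage, mem_iUnion, mem_cyl, Finset.mem_singleton, forall_eq, exists_prop]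
      constructor
      · exact fun h => ⟨ω z, h, rfl⟩
      · rintro ⟨c, hc, h⟩
        rw [h]
        exact hc
    change MeasurableSet[MeasurableSpace.generateFrom _] ((fun ω : KK Γ => ω z) ⁻¹' s)
    rw [h1]
    refine MeasurableSet.biUnion (Set.to_countable s) fun c _ => ?_
    exact MeasurableSpace.measurableSet_generateFrom ⟨{z}, fun _ => c, rfl⟩
  · refine MeasurableSpace.generateFrom_le ?_
    rintro s ⟨W, b, rfl⟩
    exact measurable_cyl W b

lemma piSystem_cyl : IsPiSystem {s | ∃ W b, s = cyl (Γ := Γ) W b} := by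
  classical
  rintro s ⟨W, b, rfl⟩ t ⟨W', b', rfl⟩ ⟨ω, hω1, hω2⟩
  refine ⟨W ∪ W', ω, ?_⟩
  ext ω'
  rw [mem_inter_iff, mem_cyl, mem_cyl, mem_cyl]
  constructor
  · rintro ⟨h1, h2⟩ z hz
    rcases Finset.mem_union.1 hz with h | h
    · rw [h1 z h, hω1 z h]
    · rw [h2 z h, hω2 z h]
  · intro h
    exact ⟨fun z hz => by rw [h z (Finset.mem_union_left _ hz), hω1 z hz],
      fun z hz => by rw [h z (Finset.mem_union_right _ hz), hω2 z hz]⟩

lemma measure_cyl_inter {W W' : Finset (Γ × ℕ)} (h : Disjoint W W') (b b' : KK Γ) :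
    haarK Γ (cyl W b ∩ cyl W' b') = (2⁻¹ : ℝ≥0∞) ^ W.card * (2⁻¹ : ℝ≥0∞) ^ W'.card := by
  classical
  have h1 : cyl W b ∩ cyl W' b' = cyl (W ∪ W') (fun z => if z ∈ W then b z else b' z) := by
    ext ω
    rw [mem_inter_iff, mem_cyl, mem_cyl, mem_cyl]
    constructor
    · rintro ⟨h1, h2⟩ z hz
      by_cases hzW : z ∈ W
      · rw [if_pos hzW, h1 z hzW]
      · rw [if_neg hzW, h2 z ((Finset.mem_union.1 hz).resolve_left hzW)]
    · intro h2
      refine ⟨fun z hz => ?_, fun z hz => ?_⟩
      · rw [h2 z (Finset.mem_union_left _ hz), if_pos hz]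
      · rw [h2 z (Finset.mem_union_right _ hz), if_neg (Finset.disjoint_right.1 h hz)]
  rw [h1, measure_cyl, Finset.card_union_of_disjoint h, pow_add]

end cyl

section quad

variable {Ω : Type} [MeasurableSpace Ω] (P : Measure Ω) [IsProbabilityMeasure P]

/-- Positivity of the Gram matrix of indicator functions. -/
lemma gram_nonneg {ι : Type} [Fintype ι] (X : ι → Set Ω) (hX : ∀ i, MeasurableSet (X i))
    (c : ι → ℝ) : 0 ≤ ∑ i, ∑ j, c i * c j * P.real (X i ∩ X j) := by
  have h1 : ∀ i j, ∫ ω, c i * c j * (X i ∩ X j).indicator (fun _ => (1 : ℝ)) ω ∂P =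
      c i * c j * P.real (X i ∩ X j) := by
    intro i j
    rw [integral_const_mul, integral_indicator ((hX i).inter (hX j))]
    simp
  have h2 : ∀ i j, Integrable (fun ω => c i * c j * (X i ∩ X j).indicator (fun _ => (1 : ℝ)) ω) P :=
    fun i j => ((integrable_const (1 : ℝ)).indicator ((hX i).inter (hX j))).const_mul _
  simp_rw [← h1]
  simp_rw [← integral_finset_sum _ fun j (_ : j ∈ Finset.univ) => h2 _ j]
  rw [← integral_finset_sum _ fun i _ => integrable_finset_sum _ fun j _ => h2 i j]
  refine integral_nonneg fun ω => ?_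
  have h3 : ∑ i, ∑ j, c i * c j * (X i ∩ X j).indicator (fun _ => (1 : ℝ)) ω =
      (∑ i, c i * (X i).indicator (fun _ => (1 : ℝ)) ω) ^ 2 := by
    rw [sq, Finset.sum_mul_sum]
    refine Finset.sum_congr rfl fun i _ => Finset.sum_congr rfl fun j _ => ?_
    by_cases hi : ω ∈ X i <;> by_cases hj : ω ∈ X j <;> simp [hi, hj]
  rw [h3]
  positivity

/-- A set which has the same correlation with infinitely many pairwise independent sets of the
same measure is independent of them. -/
lemma indep_of_seq {A : Set Ω} (hA : MeasurableSet A) (B : ℕ → Set Ω)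
    (hB : ∀ i, MeasurableSet (B i)) (b c : ℝ) (h1 : ∀ i, P.real (B i) = b)
    (h2 : ∀ i j, i ≠ j → P.real (B i ∩ B j) = b * b) (h3 : ∀ i, P.real (A ∩ B i) = c) :
    c = P.real A * b := by
  classical
  set a := P.real A with ha
  have ha1 : a ≤ 1 := by
    rw [ha]
    exact measureReal_le_one
  have hb0 : 0 ≤ b := by
    rw [← h1 0]
    exact measureReal_nonneg
  set δ := c - a * b with hδ
  have key : ∀ n : ℕ, (n : ℝ) * δ ^ 2 ≤ 1 := by
    intro n
    have hg := gram_nonneg P (ι := Option (Option (Fin n)))
      (fun i => i.elim univ fun i => i.elim A fun i => B i)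
      (by
        rintro (_ | _ | i)
        · exact MeasurableSet.univ
        · exact hA
        · exact hB i)
      (fun i => i.elim (-(n * b)) fun i => i.elim (-(n * δ)) fun _ => 1)
    have h4 : ∀ i : Fin n, ∑ j : Fin n, P.real (B i ∩ B j) = b + (n - 1) * (b * b) := by
      intro i
      have h5 : ∀ j : Fin n, P.real (B i ∩ B j) = b * b + if i = j then b - b * b else 0 := by
        intro j
        by_cases hij : i = j
        · rw [if_pos hij, hij, inter_self, h1]
          ring
        · rw [if_neg hij, h2 i j (fun h => hij (Fin.ext h)), add_zero]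
      simp_rw [h5]
      rw [Finset.sum_add_distrib, Finset.sum_const, Finset.sum_ite_eq, if_pos (Finset.mem_univ _),
        Finset.card_univ, Fintype.card_fin, nsmul_eq_mul]
      ring
    have h6 : ∀ i, P.real (B i ∩ A) = c := fun i => by rw [inter_comm, h3]
    simp only [Fintype.sum_option, Option.elim_none, Option.elim_some, univ_inter, inter_univ,
      inter_self, probReal_univ, h1, h3, h6, one_mul, mul_one, h4, Finset.sum_add_distrib,
      Finset.sum_const, Finset.card_univ, Fintype.card_fin, nsmul_eq_mul, ← ha] at hg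
    rcases Nat.eq_zero_or_pos n with hn | hn
    · rw [hn]
      simp
    have hn' : (0 : ℝ) < n := by exact_mod_cast hn
    have h7 : (n : ℝ) * (n * δ ^ 2) ≤ n * 1 := by
      nlinarith [hg, mul_nonneg (mul_nonneg hn'.le (sq_nonneg δ)) (mul_nonneg hn'.le
        (sub_nonneg.2 ha1)), mul_nonneg hn'.le (sq_nonneg (b - 1)), mul_nonneg hn'.le hb0]
    exact le_of_mul_le_mul_left h7 hn'
  by_contra hne
  have hδ0 : 0 < δ ^ 2 := by
    apply sq_pos_of_ne_zero
    intro h
    apply hne
    rw [hδ, sub_eq_zero] at h
    exact h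
  obtain ⟨n, hn⟩ := exists_nat_gt (1 / δ ^ 2)
  have h4 := key n
  rw [div_lt_iff₀ hδ0] at hn
  linarith

end quad

section shift

variable {Γ : Type} [Group Γ]

/-- the coordinates in `W`, translated by `γ⁻¹` -/
noncomputable def tr (W : Finset (Γ × ℕ)) (γ : Γ) : Finset (Γ × ℕ) :=
  W.map ⟨fun z => (γ⁻¹ * z.1, z.2), fun x y h => by
    rw [Prod.mk.injEq] at h
    exact Prod.ext (mul_left_cancel h.1) h.2⟩

lemma card_tr (W : Finset (Γ × ℕ)) (γ : Γ) : (tr W γ).card = W.card := Finset.card_map _

lemma mem_tr {W : Finset (Γ × ℕ)} {γ : Γ} {u : Γ × ℕ} :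
    u ∈ tr W γ ↔ ∃ z ∈ W, (γ⁻¹ * z.1, z.2) = u := by
  unfold tr
  rw [Finset.mem_map]
  rfl

lemma preimage_cyl (W : Finset (Γ × ℕ)) (b : KK Γ) (γ : Γ) :
    sh γ ⁻¹' cyl W b = cyl (tr W γ) (fun u => b (γ * u.1, u.2)) := by
  ext ω
  rw [mem_preimage, mem_cyl, mem_cyl]
  constructor
  · intro h u hu
    obtain ⟨z, hz, rfl⟩ := mem_tr.1 hu
    have h1 := h z hz
    rw [sh_apply] at h1
    rw [h1]
    change b z = b (γ * (γ⁻¹ * z.1), z.2)
    rw [mul_inv_cancel_left]
  · intro h z hz
    have h1 := h _ (mem_tr.2 ⟨z, hz, rfl⟩)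
    rw [sh_apply, h1]
    change b (γ * (γ⁻¹ * z.1), z.2) = b z
    rw [mul_inv_cancel_left]

lemma exists_seq [Infinite Γ] (W : Finset (Γ × ℕ)) :
    ∃ g : ℕ → Γ, ∀ i j, i ≠ j → Disjoint (tr W (g i)) (tr W (g j)) := by
  classical
  have hsymm : Std.Symm fun x y : Γ => Disjoint (tr W x) (tr W y) := ⟨fun _ _ h => h.symm⟩
  obtain ⟨g, -, hg⟩ := exists_seq_of_forall_finset_exists' (fun _ : Γ => True)
    (fun x y => Disjoint (tr W x) (tr W y)) (fun s _ => by
      let bad : Finset Γ := s.biUnion fun x => W.biUnion fun z => W.image fun z' =>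
        z'.1 * z.1⁻¹ * x
      obtain ⟨y, hy⟩ := Infinite.exists_notMem_finset bad
      refine ⟨y, trivial, fun x hx => ?_⟩
      rw [Finset.disjoint_left]
      intro u hu hu'
      obtain ⟨z, hz, rfl⟩ := mem_tr.1 hu
      obtain ⟨z', hz', h⟩ := mem_tr.1 hu'
      rw [Prod.mk.injEq] at h
      apply hy
      refine Finset.mem_biUnion.2 ⟨x, hx, Finset.mem_biUnion.2 ⟨z, hz,
        Finset.mem_image.2 ⟨z', hz', ?_⟩⟩⟩
      have h1 := h.1
      have h2 : z'.1 = y * (x⁻¹ * z.1) := by rw [← h1, mul_inv_cancel_left]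
      rw [h2]
      group)
  exact ⟨g, fun i j hij => hg hij⟩

end shift

/-- The Bernoulli shift is ergodic and essentially free. -/
theorem bern : S_BERN := by
  intro Γ _ _ _
  classical
  refine ⟨fun A hA hinv => ?_, ?_⟩
  · -- ergodicity
    have hcyl : ∀ W b, haarK Γ (A ∩ cyl W b) = haarK Γ A * haarK Γ (cyl W b) := by
      intro W b
      obtain ⟨g, hg⟩ := exists_seq (Γ := Γ) W
      have h3 : ∀ i, haarK Γ (A ∩ sh (g i) ⁻¹' cyl W b) = haarK Γ (A ∩ cyl W b) := by
        intro i
        have h4 : haarK Γ (A ∩ sh (g i) ⁻¹' cyl W b) =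
            haarK Γ (sh (g i) ⁻¹' A ∩ sh (g i) ⁻¹' cyl W b) :=
          measure_congr ((hinv (g i)).symm.inter (ae_eq_refl _))
        rw [h4, ← preimage_inter,
          (measurePreserving_sh (g i)).measure_preimage (hA.inter (measurable_cyl W b)).nullMeasurableSet]
      have h5 := indep_of_seq (haarK Γ) hA (fun i => sh (g i) ⁻¹' cyl W b)
        (fun i => measurable_sh _ (measurable_cyl W b)) ((haarK Γ).real (cyl W b))
        ((haarK Γ).real (A ∩ cyl W b))
        (fun i => by
          rw [measureReal_def, measureReal_def, preimage_cyl, measure_cyl, measure_cyl, card_tr])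
        (fun i j hij => by
          rw [measureReal_def, measureReal_def, preimage_cyl, preimage_cyl,
            measure_cyl_inter (hg i j hij), measure_cyl, card_tr, card_tr, ENNReal.toReal_mul])
        (fun i => by rw [measureReal_def, measureReal_def, h3])
      rw [measureReal_def, measureReal_def, measureReal_def, ← ENNReal.toReal_mul] at h5
      exact (ENNReal.toReal_eq_toReal_iff' (measure_ne_top _ _)
        (ENNReal.mul_ne_top (measure_ne_top _ _) (measure_ne_top _ _))).1 h5
    have hmeas : (haarK Γ).restrict A = haarK Γ A • haarK Γ := by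
      refine ext_of_generate_finite _ generate_cyl piSystem_cyl ?_ ?_
      · rintro s ⟨W, b, rfl⟩
        rw [Measure.restrict_apply (measurable_cyl W b), inter_comm, hcyl, Measure.smul_apply,
          smul_eq_mul]
      · rw [Measure.restrict_apply MeasurableSet.univ, univ_inter, Measure.smul_apply,
          measure_univ, smul_eq_mul, mul_one]
    have h1 := congrArg (fun m : Measure (KK Γ) => m A) hmeas
    simp only [Measure.restrict_apply hA, inter_self, Measure.smul_apply, smul_eq_mul] at h1
    by_cases h0 : haarK Γ A = 0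
    · exact Or.inl h0
    · right
      have h2 : haarK Γ A * 1 = haarK Γ A * haarK Γ A := by rw [mul_one]; exact h1
      exact ((ENNReal.mul_right_inj h0 (measure_ne_top _ _)).1 h2).symm
  · -- freeness
    rw [ae_all_iff]
    intro γ
    by_cases hγ : γ = 1
    · exact Filter.Eventually.of_forall fun _ _ => hγ
    let H : Set (KK Γ) := {ω | sh γ ω = ω}
    have hH : MeasurableSet H := measurableSet_eq_fun (measurable_sh γ) measurable_id
    let e : ℕ → KK Γ := fun j => Pi.single ((1 : Γ), j) 1
    have hd : Pairwise (Function.onFun Disjoint fun j => (fun ω => e j + ω) ⁻¹' H) := by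
      intro i j hij
      rw [Function.onFun, Set.disjoint_left]
      intro ω hi hj
      have hi' : sh γ (e i + ω) = e i + ω := hi
      have hj' : sh γ (e j + ω) = e j + ω := hj
      rw [sh_add] at hi' hj'
      have h1 := congrFun hi' ((1 : Γ), i)
      have h2 := congrFun hj' ((1 : Γ), i)
      rw [Pi.add_apply, Pi.add_apply, sh_apply, sh_apply] at h1 h2
      have hne : ((γ⁻¹ * 1, i) : Γ × ℕ) ≠ ((1 : Γ), i) := by
        rw [mul_one]
        intro h
        rw [Prod.mk.injEq, inv_eq_one] at h
        exact hγ h.1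
      have hne2 : ((γ⁻¹ * 1, i) : Γ × ℕ) ≠ ((1 : Γ), j) := by
        intro h
        rw [Prod.mk.injEq] at h
        exact hij h.2
      have hne3 : (((1 : Γ), i) : Γ × ℕ) ≠ ((1 : Γ), j) := by
        intro h
        rw [Prod.mk.injEq] at h
        exact hij h.2
      have a1 : e i (γ⁻¹ * 1, i) = 0 := Pi.single_eq_of_ne hne 1
      have a2 : e i ((1 : Γ), i) = 1 := Pi.single_eq_same _ 1
      have a3 : e j (γ⁻¹ * 1, i) = 0 := Pi.single_eq_of_ne hne2 1
      have a4 : e j ((1 : Γ), i) = 0 := Pi.single_eq_of_ne hne3 1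
      rw [a1, a2] at h1
      rw [a3, a4] at h2
      rw [h2, zero_add] at h1
      have h3 : (0 : ZMod 2) = 1 := by
        have := h1
        rw [right_eq_add] at this
        exact this.symm
      exact absurd h3 (by decide)
    have hm : ∀ j, haarK Γ ((fun ω => e j + ω) ⁻¹' H) = haarK Γ H := fun j =>
      measure_preimage_add _ _ _
    have hsum := measure_iUnion (μ := haarK Γ) hd
      (fun j => (measurable_const_add (e j)) hH)
    simp_rw [hm] at hsum
    have h0 : haarK Γ H = 0 := by
      by_contra hne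
      rw [ENNReal.tsum_const_eq_top_of_ne_zero hne] at hsum
      exact measure_ne_top _ _ hsum
    have h1 : ∀ᵐ ω ∂(haarK Γ), ω ∉ H := measure_eq_zero_iff_ae_notMem.1 h0
    filter_upwards [h1] with ω hω h2
    exact absurd h2 hω

end Pool.Agent.Y705.EVB
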